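import Pool.Agent.Helper30.UP.St

/-!
# Project UP (MP_e73f90_co), module TW: typical weight on a pure subspace
-/

set_option autoImplicit false

noncomputable section

namespace Pool.Agent.Helper40.UP

open Finset Pool.Agent.Helper30.UP
open scoped Classical

/-- two vectors with the same products are equal -/
theorem TW_ext {c : ℕ} (v w : E c) (h : ∀ x : E c, x ⬝ᵥ v = x ⬝ᵥ w) : v = w := by
  by_contra hne
  have h1 : v + w ≠ 0 := fun h0 => hne ((E_add_eq_zero v w).1 h0)
  obtain ⟨x, hx⟩ := exists_dot (v + w) h1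
  rw [dotProduct_add, h x, z2_add_self] at hx
  exact zero_ne_one hx

theorem TW_wt {c c' n : ℕ} (s : Fin n → E c) (s' : Fin n → E c')
    (φ : E c' →ₗ[ZMod 2] E c) (hd : ∀ x' i, x' ⬝ᵥ s' i = φ x' ⬝ᵥ s i) (x' : E c') :
    wt s' x' = wt s (φ x') := by
  unfold wt
  congr 1
  ext i
  simp only [mem_filter, mem_univ, true_and]
  rw [hd]

theorem TW_zero {c c' n : ℕ} (s : Fin n → E c) (s' : Fin n → E c')
    (W : Submodule (ZMod 2) (E c))
    (φ : E c' →ₗ[ZMod 2] E c) (hr : LinearMap.range φ = W)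
    (hd : ∀ x' i, x' ⬝ᵥ s' i = φ x' ⬝ᵥ s i) (i : Fin n) :
    s' i = 0 ↔ s i ∈ perp W := by
  rw [mem_perp]
  constructor
  · intro h x hx
    rw [← hr] at hx
    obtain ⟨x', rfl⟩ := hx
    rw [← hd, h, dotProduct_zero]
  · intro h
    apply TW_ext
    intro x'
    rw [hd, dotProduct_zero]
    apply h
    rw [← hr]
    exact ⟨x', rfl⟩

theorem TW_eq {c c' n : ℕ} (s : Fin n → E c) (s' : Fin n → E c')
    (W : Submodule (ZMod 2) (E c))
    (φ : E c' →ₗ[ZMod 2] E c) (hr : LinearMap.range φ = W)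
    (hd : ∀ x' i, x' ⬝ᵥ s' i = φ x' ⬝ᵥ s i) (i j : Fin n) :
    s' i = s' j ↔ s i + s j ∈ perp W := by
  rw [mem_perp]
  constructor
  · intro h x hx
    rw [← hr] at hx
    obtain ⟨x', rfl⟩ := hx
    rw [dotProduct_add, ← hd, ← hd, h, z2_add_self]
  · intro h
    apply TW_ext
    intro x'
    have h1 : φ x' ⬝ᵥ (s i + s j) = 0 := by
      apply h
      rw [← hr]
      exact ⟨x', rfl⟩
    rw [dotProduct_add, ← hd, ← hd] at h1
    have h2 := eq_neg_of_add_eq_zero_left h1
    rcases z2 (x' ⬝ᵥ s' j) with h3 | h3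
    · rw [h2, h3, neg_zero]
    · rw [h2, h3]
      decide

theorem hTW (hR : StRES) (hTY : StTY) : StTW := by
  intro K ε c n D s hK hε hε2 hD hn hdiv hF W hW hPu
  obtain ⟨c', s', φ, hinj, hr, hcard, hd⟩ := hR c n s W
  have hwt := TW_wt s s' φ hd
  have hz := TW_zero s s' W φ hr hd
  have he := TW_eq s s' W φ hr hd
  have hn0 : (0 : ℝ) ≤ n := Nat.cast_nonneg _
  have hK1 : (1 : ℝ) ≤ K := by exact_mod_cast hK
  have hcl : ∀ v' : E c', v' ≠ 0 →
      (((univ.filter (fun i => s' i = v')).card : ℕ) : ℝ) ≤ ε * n := by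
    intro v' hv'
    by_cases hex : ∃ j, s' j = v'
    · obtain ⟨j, rfl⟩ := hex
      have h1 : s j ∉ perp W := fun h => hv' ((hz j).2 h)
      have h2 := hPu (s j) h1
      have h3 : (univ.filter (fun i => s' i = s' j)) =
          univ.filter (fun i => s i + s j ∈ perp W) := by
        ext i
        simp only [mem_filter, mem_univ, true_and]
        exact he i j
      rw [h3]
      exact h2
    · have h3 : (univ.filter (fun i => s' i = v')) = ∅ := by
        rw [filter_eq_empty_iff]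
        intro i _ hi
        exact hex ⟨i, hi⟩
      rw [h3, card_empty, Nat.cast_zero]
      positivity
  have hne : ∃ x, wt s' x ≠ 0 := by
    obtain ⟨w, hw, hw0⟩ := Submodule.exists_mem_ne_zero_of_ne_bot hW
    rw [← hr] at hw
    obtain ⟨x', rfl⟩ := hw
    refine ⟨x', ?_⟩
    rw [hwt]
    exact hF _ hw0
  obtain ⟨ω, hω, ⟨x', hx'⟩, h1, h2, -, -, -⟩ := hTY K c' n D s' hK hD hn
    (fun x => by rw [hwt]; exact hdiv _)
    (fun v hv => by
      have h3 := hcl v hv
      have h4 : 8 * (K : ℝ) ^ 4 * ε ≤ 1 := by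
        have h5 : 0 < 8 * (K : ℝ) ^ 4 := by positivity
        rw [le_div_iff₀ h5] at hε2
        linarith
      calc 8 * (K : ℝ) ^ 4 * ((univ.filter (fun i => s' i = v)).card : ℕ)
          ≤ 8 * (K : ℝ) ^ 4 * (ε * n) := mul_le_mul_of_nonneg_left h3 (by positivity)
        _ = (8 * (K : ℝ) ^ 4 * ε) * n := by ring
        _ ≤ 1 * n := mul_le_mul_of_nonneg_right h4 hn0
        _ = n := one_mul _) hne
  -- the number of pairs of equal columns
  have hn2 : (n2 s' : ℝ) ≤ ε * n * n := by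
    have h3 : n2 s' ≤ ∑ i : Fin n, (if s' i ≠ 0 then
        (univ.filter (fun j => s' j = s' i)).card else 0) := by
      unfold n2
      rw [card_filter, ← univ_product_univ, sum_product]
      apply sum_le_sum
      intro i _
      by_cases hi : s' i ≠ 0
      · rw [if_pos hi, card_filter]
        apply sum_le_sum
        intro j _
        by_cases hj : s' i = s' j
        · rw [if_pos ⟨hi, hj⟩, if_pos hj.symm]
        · rw [if_neg (fun h => hj h.2)]
          exact Nat.zero_le _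
      · rw [if_neg hi]
        apply le_of_eq
        apply sum_eq_zero
        intro j _
        rw [if_neg (fun h => hi h.1)]
    have h4 : ((∑ i : Fin n, (if s' i ≠ 0 then
        (univ.filter (fun j => s' j = s' i)).card else 0) : ℕ) : ℝ) ≤ ∑ _i : Fin n, ε * n := by
      push_cast
      apply sum_le_sum
      intro i _
      by_cases hi : s' i ≠ 0
      · rw [if_pos hi]
        exact hcl _ hi
      · rw [if_neg hi]
        positivity
    have h5 : (n2 s' : ℝ) ≤ _ := (Nat.cast_le.2 h3).trans h4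
    rw [sum_const, card_univ, Fintype.card_fin, nsmul_eq_mul] at h5
    linarith
  have hnz : (nz s' : ℝ) = (n : ℝ) - zc s W := by
    have h3 : (univ.filter (fun i : Fin n => s' i = 0)).card +
        (univ.filter (fun i : Fin n => ¬ s' i = 0)).card = (univ : Finset (Fin n)).card :=
      card_filter_add_card_filter_not _
    have h4 : (univ.filter (fun i : Fin n => s' i = 0)).card = zc s W := by
      unfold zc
      congr 1
      ext i
      simp only [mem_filter, mem_univ, true_and]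
      exact hz i
    have h5 : (univ.filter (fun i : Fin n => ¬ s' i = 0)).card = nz s' := rfl
    rw [h4, h5, card_univ, Fintype.card_fin] at h3
    have h6 : (zc s W : ℝ) + nz s' = n := by exact_mod_cast h3
    linarith
  refine ⟨φ x', by rw [← hr]; exact ⟨x', rfl⟩, by rw [← hwt, hx']; exact hω, ?_⟩
  rw [← hwt, hx', ← hnz]
  have hDp : (0 : ℝ) < (D : ℝ) ^ 2 := by
    have : (0 : ℝ) < D := by exact_mod_cast hD
    positivity
  have h2c : (0 : ℝ) < (2 : ℝ) ^ c' := by positivity
  have hnK : (n : ℝ) ^ 2 ≤ (K : ℝ) ^ 2 * (D : ℝ) ^ 2 := by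
    rw [← mul_pow]
    apply pow_le_pow_left₀ hn0
    exact_mod_cast hn
  have h6 : (|(nz s' : ℝ) - 2 * ω| * (2 : ℝ) ^ c') * (D : ℝ) ^ 2 ≤
      ((2 * ε * (K : ℝ) ^ 2 * n) * (2 : ℝ) ^ c') * (D : ℝ) ^ 2 := by
    calc (|(nz s' : ℝ) - 2 * ω| * (2 : ℝ) ^ c') * (D : ℝ) ^ 2
        ≤ (2 * n * ((univ.filter (fun x => wt s' x ≠ ω)).card : ℕ)) * (D : ℝ) ^ 2 :=
          mul_le_mul_of_nonneg_right h1 hDp.le
      _ = 2 * n * (((univ.filter (fun x => wt s' x ≠ ω)).card : ℕ) * (D : ℝ) ^ 2) := by ring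
      _ ≤ 2 * n * (n2 s' * (2 : ℝ) ^ c') := mul_le_mul_of_nonneg_left h2 (by positivity)
      _ ≤ 2 * n * ((ε * n * n) * (2 : ℝ) ^ c') := by
          apply mul_le_mul_of_nonneg_left _ (by positivity)
          exact mul_le_mul_of_nonneg_right hn2 h2c.le
      _ = (2 * ε * n * (2 : ℝ) ^ c') * (n : ℝ) ^ 2 := by ring
      _ ≤ (2 * ε * n * (2 : ℝ) ^ c') * ((K : ℝ) ^ 2 * (D : ℝ) ^ 2) :=
          mul_le_mul_of_nonneg_left hnK (by positivity)
      _ = _ := by ring
  exact le_of_mul_le_mul_right (le_of_mul_le_mul_right h6 hDp) h2c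

end Pool.Agent.Helper40.UP
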