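import Pool.Agent.Helper9.UP.StN

set_option autoImplicit false

namespace Pool.Agent.Helper40.UP

open Finset Polynomial NumberField Module
open Pool.Agent.Helper9.UP

theorem nb_mono (K : Type) [Field K] [NumberField K] {B B' : ℝ} (h : B ≤ B') :
    nb K B ≤ nb K B' := by
  unfold nb
  have : ball K B ⊆ ball K B' := by
    intro x hx
    rw [mem_ball] at hx ⊢
    exact fun φ => (hx φ).trans h
  exact_mod_cast card_le_card this

theorem hEQ (hD : StDC) (hR : StRG) : StEQ := by
  intro K _ _ T hG W B I hW hB hI hT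
  have hd : 1 ≤ dg K := Module.finrank_pos
  have hd' : (1 : ℝ) ≤ (dg K : ℝ) := by exact_mod_cast hd
  set d : ℝ := (dg K : ℝ) with hdd
  have hW12 : 12 ≤ W := by linarith
  have hW0 : 0 < W := by linarith
  have hT2 : 0 ≤ T ^ 2 := sq_nonneg T
  have hB0 : 0 ≤ B := by
    have : 0 ≤ 24 * T ^ 2 * W ^ 2 := by positivity
    linarith
  obtain ⟨h1, h2⟩ := hD K T hG I hI B
  rw [← hdd] at h1 h2
  have hRle : T ^ 2 * nm K I ^ (1 / d) ≤ B / W := by
    rw [le_div_iff₀ hW0]; exact hT
  have hnb0 : 0 ≤ nb K B := by unfold nb; positivity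
  -- upper bound
  have hup : nm K I * ni K I B ≤ (1 + 6 * d / W) * nb K B := by
    have h3 : nb K (B + T ^ 2 * nm K I ^ (1 / d)) ≤ nb K ((1 + 1 / W) * B) := by
      apply nb_mono
      have : (1 + 1 / W) * B = B + B / W := by ring
      rw [this]; linarith
    have h4 := (hR K T hG B).1 (1 / W) (by positivity)
      (by rw [div_le_one hW0]; linarith)
      (by
        have : 12 * T ^ 2 / (1 / W) ^ 2 = 12 * T ^ 2 * W ^ 2 := by field_simp
        rw [this]
        have : 0 ≤ 12 * T ^ 2 * W ^ 2 := by positivity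
        linarith)
    have h5 : (1 + 3 * (1 / W)) ^ dg K ≤ 1 + 6 * d / W := by
      have hx0 : 0 ≤ 3 * d / W := by positivity
      have hx1 : 3 * d / W ≤ 1 / 4 := by
        rw [div_le_iff₀ hW0]; linarith
      calc (1 + 3 * (1 / W)) ^ dg K ≤ (Real.exp (3 * (1 / W))) ^ dg K := by
            apply pow_le_pow_left₀ (by positivity)
            have := Real.add_one_le_exp (3 * (1 / W))
            linarith
        _ = Real.exp (3 * d / W) := by
            rw [← Real.exp_nat_mul]
            congr 1
            ring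
        _ ≤ 1 / (1 - 3 * d / W) := Real.exp_bound_div_one_sub_of_interval hx0 (by linarith)
        _ ≤ 1 + 6 * d / W := by
            rw [div_le_iff₀ (by linarith)]
            have : 6 * d / W = 2 * (3 * d / W) := by ring
            rw [this]
            nlinarith
    calc nm K I * ni K I B ≤ _ := h1
      _ ≤ _ := h3
      _ ≤ _ := h4
      _ ≤ _ := mul_le_mul_of_nonneg_right h5 hnb0
  have hlow : (1 - 6 * d / W) * nb K B ≤ nm K I * ni K I B := by
    have hW1 : 0 < W - 1 := by linarith
    have h3 : nb K ((1 - 1 / W) * B) ≤ nb K (B - T ^ 2 * nm K I ^ (1 / d)) := by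
      apply nb_mono
      have : (1 - 1 / W) * B = B - B / W := by ring
      rw [this]; linarith
    have h4 := (hR K T hG ((1 - 1 / W) * B)).1 (1 / (W - 1)) (by positivity)
      (by rw [div_le_one hW1]; linarith)
      (by
        have e1 : 12 * T ^ 2 / (1 / (W - 1)) ^ 2 = 12 * T ^ 2 * (W - 1) ^ 2 := by field_simp
        rw [e1]
        have e2 : (11 / 12 : ℝ) ≤ 1 - 1 / W := by
          have : 1 / W ≤ 1 / 12 := one_div_le_one_div_of_le (by norm_num) hW12
          linarith
        have e3 : 12 * T ^ 2 * (W - 1) ^ 2 ≤ 12 * T ^ 2 * W ^ 2 := by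
          apply mul_le_mul_of_nonneg_left _ (by positivity)
          nlinarith
        have e4 : (11 / 12 : ℝ) * B ≤ (1 - 1 / W) * B := mul_le_mul_of_nonneg_right e2 hB0
        have e5 : 0 ≤ T ^ 2 * W ^ 2 := by positivity
        nlinarith)
    have e6 : (1 + 1 / (W - 1)) * ((1 - 1 / W) * B) = B := by
      have hWne : W ≠ 0 := hW0.ne'
      have hW1ne : W - 1 ≠ 0 := hW1.ne'
      field_simp
      ring
    rw [e6] at h4
    have hn2 : 0 ≤ nb K ((1 - 1 / W) * B) := by unfold nb; positivity
    have hdel : 3 * d * (1 / (W - 1)) ≤ 6 * d / W := by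
      rw [mul_one_div, div_le_div_iff₀ hW1 hW0]
      nlinarith
    have h5 : (1 + 3 * (1 / (W - 1))) ^ dg K ≤ Real.exp (3 * d * (1 / (W - 1))) := by
      calc (1 + 3 * (1 / (W - 1))) ^ dg K ≤ (Real.exp (3 * (1 / (W - 1)))) ^ dg K := by
            apply pow_le_pow_left₀ (by positivity)
            have := Real.add_one_le_exp (3 * (1 / (W - 1)))
            linarith
        _ = Real.exp (3 * d * (1 / (W - 1))) := by
            rw [← Real.exp_nat_mul]
            congr 1
            ring
    have h6 : nb K B ≤ Real.exp (3 * d * (1 / (W - 1))) * nb K ((1 - 1 / W) * B) :=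
      h4.trans (mul_le_mul_of_nonneg_right h5 hn2)
    have h7 : (1 - 6 * d / W) ≤ Real.exp (-(3 * d * (1 / (W - 1)))) := by
      have := Real.add_one_le_exp (-(3 * d * (1 / (W - 1))))
      linarith
    calc (1 - 6 * d / W) * nb K B ≤ Real.exp (-(3 * d * (1 / (W - 1)))) * nb K B :=
          mul_le_mul_of_nonneg_right h7 hnb0
      _ ≤ Real.exp (-(3 * d * (1 / (W - 1)))) *
            (Real.exp (3 * d * (1 / (W - 1))) * nb K ((1 - 1 / W) * B)) :=
          mul_le_mul_of_nonneg_left h6 (Real.exp_pos _).le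
      _ = nb K ((1 - 1 / W) * B) := by
          rw [← mul_assoc, ← Real.exp_add, neg_add_cancel, Real.exp_zero, one_mul]
      _ ≤ _ := h3
      _ ≤ _ := h2
  rw [abs_le]
  constructor <;> nlinarith

end Pool.Agent.Helper40.UP
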