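import Pool.Agent.Helper9.UP.StC

set_option autoImplicit false

namespace Pool.Agent.Helper40.UP

open Finset Polynomial
open Pool.Agent.Helper9.UP

theorem hPO : StPO := by
  intro Λ f hf hl m hm
  have hm0 : (2 : ℝ) < m := by
    have := Real.exp_pos Λ
    linarith
  set M : ℝ := (m : ℝ) with hM
  have hM1 : 1 ≤ M := by linarith
  set d : ℕ := f.natDegree with hd
  have hE0 : 0 < Real.exp Λ := Real.exp_pos Λ
  have hev : ((f.eval (m : ℤ) : ℤ) : ℝ) = ∑ k ∈ range (d + 1), ((f.coeff k : ℤ) : ℝ) * M ^ k := by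
    rw [Polynomial.eval_eq_sum_range]
    push_cast
    rfl
  have hlead : (1 : ℝ) ≤ ((f.coeff d : ℤ) : ℝ) := by
    have : 0 < f.coeff d := hl
    exact_mod_cast this
  have hMd : M ≤ M ^ d := by
    calc M = M ^ 1 := (pow_one M).symm
      _ ≤ M ^ d := pow_le_pow_right₀ hM1 hf.deg
  -- lower bound
  set S : ℝ := ∑ k ∈ range d, M ^ k with hS
  have hgeo : (M - 1) * S = M ^ d - 1 := mul_geom_sum M d
  have hS0 : 0 ≤ S := Finset.sum_nonneg fun k _ => by positivity
  have hlow : M ^ d - Real.exp Λ * S ≤ ((f.eval (m : ℤ) : ℤ) : ℝ) := by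
    rw [hev, Finset.sum_range_succ]
    have h1 : -(Real.exp Λ * S) ≤ ∑ k ∈ range d, ((f.coeff k : ℤ) : ℝ) * M ^ k := by
      rw [hS, Finset.mul_sum, ← Finset.sum_neg_distrib]
      apply Finset.sum_le_sum
      intro k _
      have h2 := (abs_le.1 (hf.coe k)).1
      have h3 : 0 ≤ M ^ k := by positivity
      nlinarith
    have h4 : M ^ d ≤ ((f.coeff d : ℤ) : ℝ) * M ^ d := by
      have : 0 ≤ M ^ d := by positivity
      nlinarith
    linarith
  have h2le : 2 ≤ M ^ d - Real.exp Λ * S := by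
    have h5 : Real.exp Λ * S ≤ (M - 2) * S := mul_le_mul_of_nonneg_right (by linarith) hS0
    have h6 : 2 * (M - 1) ≤ (M - 1) * (M ^ d - (M - 2) * S) := by
      have : (M - 1) * (M ^ d - (M - 2) * S) = (M - 1) * M ^ d - (M - 2) * ((M - 1) * S) := by ring
      rw [this, hgeo]
      nlinarith
    have h7 : 2 ≤ M ^ d - (M - 2) * S := by
      by_contra hcon
      push Not at hcon
      have : (M - 1) * (M ^ d - (M - 2) * S) < (M - 1) * 2 :=
        mul_lt_mul_of_pos_left hcon (by linarith)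
      linarith
    linarith
  have hgt : 1 < f.eval (m : ℤ) := by
    have : (1 : ℝ) < ((f.eval (m : ℤ) : ℤ) : ℝ) := by linarith
    exact_mod_cast this
  have hval : ((val f m : ℕ) : ℤ) = f.eval (m : ℤ) := by
    unfold Pool.Agent.Helper9.UP.val
    exact Int.toNat_of_nonneg (by linarith)
  refine ⟨hgt, hval, ?_⟩
  have h8 : ((val f m : ℕ) : ℝ) = ((f.eval (m : ℤ) : ℤ) : ℝ) := by
    rw [← hval]
    rfl
  rw [h8, hev]
  calc ∑ k ∈ range (d + 1), ((f.coeff k : ℤ) : ℝ) * M ^ k
      ≤ ∑ k ∈ range (d + 1), Real.exp Λ * M ^ d := by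
        apply Finset.sum_le_sum
        intro k hk
        have h2 := (abs_le.1 (hf.coe k)).2
        have h3 : 0 ≤ M ^ k := by positivity
        have h9 : M ^ k ≤ M ^ d := pow_le_pow_right₀ hM1 (by
          have := Finset.mem_range.1 hk
          omega)
        calc ((f.coeff k : ℤ) : ℝ) * M ^ k ≤ Real.exp Λ * M ^ k :=
              mul_le_mul_of_nonneg_right h2 h3
          _ ≤ Real.exp Λ * M ^ d := mul_le_mul_of_nonneg_left h9 hE0.le
    _ = ((d : ℝ) + 1) * Real.exp Λ * M ^ d := by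
        rw [Finset.sum_const, Finset.card_range, nsmul_eq_mul]
        push_cast
        ring

end Pool.Agent.Helper40.UP
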